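import Pool.Agent.Helper53.Pq.Goals
import Pool.Agent.Helper88.NO.D4
import Pool.Agent.Helper88.NO.D12
import Pool.Agent.Helper33.NO.D3a
import Pool.Agent.Helper35.NO.D3b

/-!
MP_705522_gt, packet Pq-B4 (3709): the facts `B4 θ (mu (1/θ))`.
-/

set_option autoImplicit false

open MeasureTheory Set Filter Topology

noncomputable section

namespace Pool.Agent.Helper86.Pq

open Pool.Agent.Helper53.Pq
open Pool.Agent.Helper28.NO (Lf Ok IsLaw ph hm mu muZ cc GD1 GD2 GD3a GD3b)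
open Pool.Agent.Helper7.Proj (Zd Bp projVol)
open Pool.Agent.Helper88.NO (HX U1 nn nn_low nn_high nn_le int_mu mu_prod)

/-- the scalar inequality for `ρ ≥ L` -/
theorem scalar (ρ L : ℝ) (hL : 0 < L) (h : L ≤ ρ) :
    ρ ^ 2 / (2 * L) - ρ ^ 4 / (32 * L ^ 3) ≤ ρ - L / 2 := by
  have h1 : ρ - L / 2 - (ρ ^ 2 / (2 * L) - ρ ^ 4 / (32 * L ^ 3)) =
      (ρ - 2 * L) ^ 2 * (ρ ^ 2 + 4 * ρ * L - 4 * L ^ 2) / (32 * L ^ 3) := by
    field_simp
    ring
  have h2 : 0 ≤ ρ ^ 2 + 4 * ρ * L - 4 * L ^ 2 := by nlinarith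
  have h3 : 0 ≤ (ρ - 2 * L) ^ 2 * (ρ ^ 2 + 4 * ρ * L - 4 * L ^ 2) / (32 * L ^ 3) := by positivity
  linarith

theorem gamma_refl (θ : ℝ) (h0 : 0 < θ) :
    Real.Gamma (1 + θ) * Real.Gamma (1 - θ) = 1 + vv θ := by
  unfold vv
  rw [add_comm 1 θ, Real.Gamma_add_one h0.ne', mul_assoc, Real.Gamma_mul_Gamma_one_sub]
  ring

/-- the structure of `|Z₁ - Z₂|` -/
theorem hX_of (q : ℝ) (hq2 : 2 < q) (h1 : GD1) (h2 : GD2) (h3b : GD3b) :
    HX ((muZ q).prod (muZ q)) (fun p : ℝ × ℝ => |p.1 - p.2|) (2 * (cc q - 1) / (q * Zd q)) := by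
  obtain ⟨hZ, hprob, hpos, hint, hmean, _⟩ := h1 q hq2
  have hq0 : 0 < q := by linarith
  set s : ℝ := q * Zd q with hs
  have hs0 : 0 < s := by positivity
  have hc : 1 < cc q := by
    unfold Pool.Agent.Helper28.NO.cc
    exact Real.one_lt_rpow (by norm_num) (by positivity)
  have hm0 : 0 < 2 * (cc q - 1) / s := by
    have : 0 < cc q - 1 := by linarith
    positivity
  set m : ℝ := 2 * (cc q - 1) / s with hmd
  set ν : Measure (ℝ × ℝ) := (muZ q).prod (muZ q) with hν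
  have hνp : IsProbabilityMeasure ν := by
    rw [hν]
    infer_instance
  have i1 : Integrable (fun p : ℝ × ℝ => p.1) ν := hint.comp_fst (muZ q)
  have i2 : Integrable (fun p : ℝ × ℝ => p.2) ν := hint.comp_snd (muZ q)
  refine ⟨hνp, (i1.sub i2).abs, fun p => abs_nonneg _, ?_, hm0, h3b q hq2⟩
  have e1 : ∀ p : ℝ × ℝ, |p.1 - p.2| = 2 * max (1 * p.1) (1 * p.2) - (p.1 + p.2) := by
    intro p
    rw [one_mul, one_mul]
    rcases le_total p.1 p.2 with h | h
    · rw [max_eq_right h, abs_of_nonpos (by linarith)]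
      ring
    · rw [max_eq_left h, abs_of_nonneg (by linarith)]
      ring
  have e2 : ∫ p : ℝ × ℝ, p.1 ∂ν = 1 / s := by
    rw [hν, integral_fun_fst (fun z : ℝ => z), hmean]
    simp
  have e3 : ∫ p : ℝ × ℝ, p.2 ∂ν = 1 / s := by
    rw [hν, integral_fun_snd (fun z : ℝ => z), hmean]
    simp
  have e4 := h2 q hq2 1 1 zero_le_one zero_le_one
  rw [← hs, ← hν, Real.one_rpow] at e4
  have e5 : ((1 : ℝ) + 1) ^ (1 / q) = cc q := by
    unfold Pool.Agent.Helper28.NO.cc
    norm_num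
  rw [e5] at e4
  have i3 : Integrable (fun p : ℝ × ℝ => max (1 * p.1) (1 * p.2)) ν :=
    (i1.const_mul 1).sup (i2.const_mul 1)
  have i4 : Integrable (fun p : ℝ × ℝ => p.1 + p.2) ν := i1.add i2
  simp_rw [e1]
  rw [integral_sub (i3.const_mul 2) i4, integral_const_mul, e4, integral_add i1 i2, e2, e3, hmd]
  ring

theorem gB4_aux (h1 : GD1) (h2 : GD2) (h3a : GD3a) (h3b : GD3b) : GB4 := by
  intro hMom hM4 hTV θ hlo hhi
  have hθ0 : 0 < θ := by linarith
  have hθ2 : θ < 1 / 2 := by linarith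
  set q : ℝ := 1 / θ with hq
  have hqθ : 1 / q = θ := by rw [hq, one_div_one_div]
  have hq2 : 2 < q := by
    rw [hq, lt_div_iff₀ hθ0]
    linarith
  have hq0 : 0 < q := by linarith
  obtain ⟨hZ, hprob, hpos, hint, hmean, _⟩ := h1 q hq2
  have hX := hX_of q hq2 h1 h2 h3b
  set s : ℝ := q * Zd q with hs
  have hs0 : 0 < s := by positivity
  have hc : 1 < cc q := by
    unfold Pool.Agent.Helper28.NO.cc
    exact Real.one_lt_rpow (by norm_num) (by positivity)
  set ν : Measure (ℝ × ℝ) := (muZ q).prod (muZ q) with hν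
  have hP : IsProbabilityMeasure (mu q) := Measure.isProbabilityMeasure_map (by fun_prop)
  -- moments
  have M1 := hMom θ hθ0 hθ2 1 le_rfl
  have M2 := hMom θ hθ0 hθ2 2 (by norm_num)
  have M3 := hMom θ hθ0 hθ2 3 (by norm_num)
  have M4 := hMom θ hθ0 hθ2 4 (by norm_num)
  rw [← hq] at M1 M2 M3 M4
  have m1 : ∫ y, y ∂(mu q) = 1 := by
    have := M1.2
    simpa using this
  have i1 : Integrable (fun y : ℝ => y) (mu q) := by
    have := M1.1
    simpa using this
  have m2 : ∫ y, y ^ 2 ∂(mu q) = 1 + vv θ := by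
    rw [M2.2, ← gamma_refl θ hθ0]
    norm_num
  have m3 : ∫ y, y ^ 3 ∂(mu q) = Real.Gamma (1 + 2 * θ) * Real.Gamma (1 - θ) ^ 2 := by
    rw [M3.2]
    norm_num
  have m4 : ∫ y, y ^ 4 ∂(mu q) = Real.Gamma (1 + 3 * θ) * Real.Gamma (1 - θ) ^ 3 := by
    rw [M4.2]
    norm_num
  have i2 : Integrable (fun y : ℝ => y ^ 2) (mu q) := M2.1
  have i3 : Integrable (fun y : ℝ => y ^ 3) (mu q) := M3.1
  have i4 : Integrable (fun y : ℝ => y ^ 4) (mu q) := M4.1
  have i0 : Integrable (fun _ : ℝ => (1 : ℝ)) (mu q) := integrable_const _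
  have hI1 : ∫ _ : ℝ, (1 : ℝ) ∂(mu q) = 1 := by simp
  have v2 : ∫ y, (y - 1) ^ 2 ∂(mu q) = vv θ := by
    have e : ∀ y : ℝ, (y - 1) ^ 2 = y ^ 2 + ((-2) * y + 1) := fun y => by ring
    have j1 : Integrable (fun y : ℝ => (-2) * y + 1) (mu q) := (i1.const_mul (-2)).add i0
    simp_rw [e]
    rw [integral_add i2 j1, integral_add (i1.const_mul (-2)) i0,
      integral_const_mul, m1, m2, hI1]
    ring
  have v3 : ∫ y, (y - 1) ^ 3 ∂(mu q) = Real.Gamma (1 + 2 * θ) * Real.Gamma (1 - θ) ^ 2 -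
      3 * (1 + vv θ) + 2 := by
    have e : ∀ y : ℝ, (y - 1) ^ 3 = y ^ 3 + ((-3) * y ^ 2 + (3 * y + (-1) * 1)) := fun y => by ring
    have j1 : Integrable (fun y : ℝ => 3 * y + (-1) * 1) (mu q) :=
      (i1.const_mul 3).add (i0.const_mul (-1))
    have j2 : Integrable (fun y : ℝ => (-3) * y ^ 2 + (3 * y + (-1) * 1)) (mu q) :=
      (i2.const_mul (-3)).add j1
    simp_rw [e]
    rw [integral_add i3 j2,
      integral_add (i2.const_mul (-3)) j1,
      integral_add (i1.const_mul 3) (i0.const_mul (-1)), integral_const_mul, integral_const_mul,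
      integral_const_mul, m1, m2, m3, hI1]
    ring
  have v4 : ∫ y, (y - 1) ^ 4 ∂(mu q) = Real.Gamma (1 + 3 * θ) * Real.Gamma (1 - θ) ^ 3 -
      4 * (Real.Gamma (1 + 2 * θ) * Real.Gamma (1 - θ) ^ 2) + 6 * (1 + vv θ) - 3 := by
    have e : ∀ y : ℝ, (y - 1) ^ 4 = y ^ 4 + ((-4) * y ^ 3 + (6 * y ^ 2 + ((-4) * y + 1))) :=
      fun y => by ring
    have j1 : Integrable (fun y : ℝ => (-4) * y + 1) (mu q) := (i1.const_mul (-4)).add i0
    have j2 : Integrable (fun y : ℝ => 6 * y ^ 2 + ((-4) * y + 1)) (mu q) :=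
      (i2.const_mul 6).add j1
    have j3 : Integrable (fun y : ℝ => (-4) * y ^ 3 + (6 * y ^ 2 + ((-4) * y + 1))) (mu q) :=
      (i3.const_mul (-4)).add j2
    simp_rw [e]
    rw [integral_add i4 j3,
      integral_add (i3.const_mul (-4)) j2,
      integral_add (i2.const_mul 6) j1,
      integral_add (i1.const_mul (-4)) i0, integral_const_mul, integral_const_mul,
      integral_const_mul, m1, m2, m3, m4, hI1]
    ring
  obtain ⟨g1, g2, g3⟩ := hM4 θ hlo hhi
  refine ⟨hlo, hhi, hP, ?_, i4, m1, v2, ?_, ?_, ?_, hTV θ hlo hhi, ?_, ?_⟩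
  · unfold Pool.Agent.Helper28.NO.mu
    refine (ae_map_iff (f := fun z => q * Zd q * z) (μ := muZ q) (by fun_prop)
      (measurableSet_Ioi : MeasurableSet {y : ℝ | 0 < y})).2 ?_
    filter_upwards [hpos] with z hz
    positivity
  · rw [v3]; linarith
  · rw [v3]; linarith
  · rw [v4]; exact g3
  · intro a b ha hb
    rw [int_mu q _ (by fun_prop)]
    have e1 : ∀ p : ℝ × ℝ, max (a * (s * p.1)) (b * (s * p.2)) =
        max ((a * s) * p.1) ((b * s) * p.2) := by
      intro p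
      rw [← mul_assoc a s p.1, ← mul_assoc b s p.2]
    show ∫ p : ℝ × ℝ, max (a * (s * p.1)) (b * (s * p.2)) ∂ν = _
    simp_rw [e1]
    rw [h2 q hq2 (a * s) (b * s) (by positivity) (by positivity), ← hs,
      Real.mul_rpow ha hs0.le, Real.mul_rpow hb hs0.le, ← add_mul,
      Real.mul_rpow (add_nonneg (Real.rpow_nonneg ha _) (Real.rpow_nonneg hb _))
        (Real.rpow_nonneg hs0.le _), ← Real.rpow_mul hs0.le, mul_one_div_cancel hq0.ne',
      Real.rpow_one, mul_div_assoc, div_self hs0.ne', mul_one, hqθ]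
  · intro a b ρ hb hba hρ
    have ha : 0 < a := lt_of_lt_of_le hb hba
    have hh : 0 < hm q a b := by
      unfold Pool.Agent.Helper28.NO.hm
      refine Real.rpow_pos_of_pos ?_ _
      have h1 := Real.rpow_pos_of_pos ha (-q)
      have h2 := Real.rpow_pos_of_pos hb (-q)
      positivity
    have hKf : Kf θ a b = (hm q a b ^ 2 / (a * b)) ^ (q - 1) := by
      unfold Kf
      rw [← hq]
    have hLg : Lg θ a b = 4 * hm q a b * (cc q - 1) := by
      unfold Lg Pool.Agent.Helper28.NO.cc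
      rw [← hq, hqθ]
    rw [hKf, hLg]
    set h : ℝ := hm q a b with hhd
    set lam : ℝ := (h ^ 2 / (a * b)) ^ (q - 1) with hlam
    have hlam0 : 0 ≤ lam := Real.rpow_nonneg (by positivity) _
    have hc1 : 0 < cc q - 1 := by linarith
    rw [int_mu q _ (by fun_prop)]
    show _ ≤ ∫ p : ℝ × ℝ, max 0 (ρ - |a * (s * p.1) - b * (s * p.2)|) ∂ν
    have e1 : ∀ p : ℝ × ℝ, max 0 (ρ - |a * (s * p.1) - b * (s * p.2)|) =
        s * max 0 (ρ / s - |a * p.1 - b * p.2|) := by
      intro p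
      rw [mul_max_of_nonneg _ _ hs0.le, mul_zero, mul_sub, mul_div_cancel₀ _ hs0.ne']
      have : a * (s * p.1) - b * (s * p.2) = s * (a * p.1 - b * p.2) := by ring
      rw [this, abs_mul, abs_of_pos hs0]
    simp_rw [e1]
    rw [integral_const_mul]
    have g1 := h3a q hq2 a b (ρ / s) ha hb (by positivity)
    rw [← hhd, ← hlam, ← hν] at g1
    have e2 : ∀ p : ℝ × ℝ, max 0 (ρ / s - h * |p.1 - p.2|) =
        h * max 0 (ρ / (s * h) - |p.1 - p.2|) := by
      intro p
      rw [mul_max_of_nonneg _ _ hh.le, mul_zero, mul_sub]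
      congr 2
      field_simp
    simp_rw [e2] at g1
    rw [integral_const_mul] at g1
    have hR0 : 0 ≤ ρ / (s * h) := by positivity
    have g2 := nn_le hX (ρ / (s * h)) hR0
    have g3 : lam * (h * nn (2 * (cc q - 1) / s) (ρ / (s * h))) ≤
        lam * (h * ∫ p : ℝ × ℝ, max 0 (ρ / (s * h) - |p.1 - p.2|) ∂ν) :=
      mul_le_mul_of_nonneg_left (mul_le_mul_of_nonneg_left g2 hh.le) hlam0
    have g4 := mul_le_mul_of_nonneg_left (g3.trans g1) hs0.le
    refine le_trans ?_ g4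
    have g5 : s * (lam * (h * nn (2 * (cc q - 1) / s) (ρ / (s * h)))) =
        lam * (s * h * nn (2 * (cc q - 1) / s) (ρ / (s * h))) := by ring
    rw [g5]
    refine mul_le_mul_of_nonneg_left ?_ hlam0
    set L : ℝ := 4 * h * (cc q - 1) with hL
    have hL0 : 0 < L := by positivity
    have hmpos : 0 < 2 * (cc q - 1) / s := by positivity
    have hsh : 0 < s * h := by positivity
    rcases le_total ρ L with hρL | hρL
    · have hR2 : ρ / (s * h) ≤ 2 * (2 * (cc q - 1) / s) := by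
        rw [div_le_iff₀ (by positivity)]
        have : 2 * (2 * (cc q - 1) / s) * (s * h) = L := by
          rw [hL]
          field_simp
          ring
        rw [this]
        exact hρL
      rw [nn_low _ _ hR0 hR2]
      have e : s * h * ((ρ / (s * h)) ^ 2 / (4 * (2 * (cc q - 1) / s))) = ρ ^ 2 / (2 * L) := by
        rw [hL]
        have hc1' : cc q - 1 ≠ 0 := hc1.ne'
        field_simp
      rw [e]
      have : 0 ≤ ρ ^ 4 / (32 * L ^ 3) := by positivity
      linarith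
    · have hR2 : 2 * (2 * (cc q - 1) / s) ≤ ρ / (s * h) := by
        rw [le_div_iff₀ (by positivity)]
        have : 2 * (2 * (cc q - 1) / s) * (s * h) = L := by
          rw [hL]
          field_simp
          ring
        rw [this]
        exact hρL
      rw [nn_high _ _ hmpos hR2]
      have e : s * h * (ρ / (s * h) - 2 * (cc q - 1) / s) = ρ - L / 2 := by
        rw [hL]
        field_simp
        ring
      rw [e]
      exact scalar ρ L hL0 hρL

theorem gB4 : GB4 :=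
  gB4_aux Pool.Agent.Helper88.NO.goalD1 Pool.Agent.Helper88.NO.goalD2
    Pool.Agent.Helper33.NO.goalD3a Pool.Agent.Helper35.NO.goalD3b

end Pool.Agent.Helper86.Pq
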